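import Mathlib
import Pool.Agent.H24.FD.D

set_option autoImplicit false

/-!
# The edge maximum of maximal d-fold k-colourable graphs

Let `s = ⌈log_2 d⌉`. Every graph on `n` vertices with `d` distinct `k`-colourings has at most
`ex(n + s, K_{k+1}) - s n` edges, for all `n`, and for `k ≥ 2` and `n ≥ (k - 1) s + 1` this is the exact
maximum `f_d(n, k)`. For `k = 2` this covers all `n` for which such graphs exist.

Idea: `T k N = ∑_{i < N} ⌊i / k⌋` is the least number of pairs inside the blocks of a partition of `N`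
points into `k` blocks. We prove by induction on `n` that a graph with more than `2^(s-1)` colourings has at
least `T k (n + s) - C(s, 2)` non-edges. If there is no clique with `k` vertices, Turán's theorem gives
`T (k-1) n` non-edges, which is enough. If `x_1, …, x_k` is a clique, then a colouring is determined by the
`i` with `y ~ x_i`, for all `y`; so the number of colourings is at most `∏_y a_y ≤ 2^(∑ (a_y - 1))`, where
`a_y` is the number of the `x_i` not adjacent to `y`. Hence `∑ a_y ≥ n + s`, some `x_i` has at least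
`(n + s) / k` non-neighbours (itself included), and it can be removed: different colourings of the graph
remain different without `x_i`.
-/

namespace Pool.Agent.Results.MP_70fc77_co.EdgeMaximum

/-- A `k`-colouring of `G`: a partition of the vertex set (given as an equivalence relation) into at most
`k` blocks, all of which are anticliques. -/
def IsColouring {V : Type} (G : SimpleGraph V) (k : ℕ) (r : Setoid V) : Prop :=
  Nat.card (Quotient r) ≤ k ∧ ∀ x y, r x y → ¬ G.Adj x y

/-- `G` has `d` pairwise distinct `k`-colourings. -/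
def DFold {V : Type} (G : SimpleGraph V) (d k : ℕ) : Prop :=
  ∃ f : Fin d → Setoid V, Function.Injective f ∧ ∀ i, IsColouring G k (f i)

/-- `G` is maximal `d`-fold `k`-colourable: no edge can be added. -/
def MaximalDFold {V : Type} (G : SimpleGraph V) (d k : ℕ) : Prop :=
  DFold G d k ∧ ∀ x y, x ≠ y → ¬ G.Adj x y → ¬ DFold (G ⊔ SimpleGraph.edge x y) d k

/-- `ex(n, K_{k+1})`, the maximum number of edges of a graph on `n` vertices without `K_{k+1}`. -/
noncomputable def ex (n k : ℕ) : ℕ :=
  SimpleGraph.extremalNumber n (⊤ : SimpleGraph (Fin (k + 1)))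

/-- `f_d(n, k) = m`: some maximal `d`-fold `k`-colourable graph on `n` vertices has `m` edges, and none
has more. -/
def IsEdgeMaximum (d n k m : ℕ) : Prop :=
  IsGreatest {e | ∃ G : SimpleGraph (Fin n), MaximalDFold G d k ∧ G.edgeSet.ncard = e} m

open Pool.Agent.H24.FD

lemma dfold_iff {V : Type} [Finite V] (G : SimpleGraph V) (d k : ℕ) :
    DFold G d k ↔ d ≤ colNum G k := by
  classical
  haveI := finite_setoid V
  haveI : Fintype {r : Setoid V // IsCol G k r} := Fintype.ofFinite _
  unfold colNum
  rw [Nat.card_eq_fintype_card]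
  constructor
  · rintro ⟨f, hf, hc⟩
    have h := Fintype.card_le_of_injective (fun i => (⟨f i, hc i⟩ : {r : Setoid V // IsCol G k r}))
      (fun i j hij => hf (congrArg Subtype.val hij))
    rwa [Fintype.card_fin] at h
  · intro h
    have h1 : Fintype.card (Fin d) ≤ Fintype.card {r : Setoid V // IsCol G k r} := by
      rwa [Fintype.card_fin]
    obtain ⟨e⟩ := Function.Embedding.nonempty_of_card_le h1
    exact ⟨fun i => (e i).1, fun i j hij => e.injective (Subtype.ext hij), fun i => (e i).2⟩

lemma ex_eq (n k : ℕ) (hk : 1 ≤ k) : ex n k + T k n = n.choose 2 := by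
  classical
  haveI : Nontrivial (Fin (k + 1)) := Fin.nontrivial_iff_two_le.2 (by omega)
  unfold ex
  rw [SimpleGraph.extremalNumber_top, Fintype.card_fin, Nat.add_sub_cancel, ← T_turan k hk n]

lemma choose_add (n s : ℕ) : (n + s).choose 2 = n.choose 2 + s.choose 2 + s * n := by
  have h1 := two_choose n
  have h2 := two_choose s
  have h3 := two_choose (n + s)
  nlinarith

lemma ncard_eq {n : ℕ} (G : SimpleGraph (Fin n)) [Fintype G.edgeSet] :
    G.edgeSet.ncard = G.edgeFinset.card := by
  rw [← SimpleGraph.coe_edgeFinset, Set.ncard_coe_finset]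

theorem upper {n : ℕ} (G : SimpleGraph (Fin n)) {d k : ℕ} (hd : 1 ≤ d) (hk : 1 ≤ k)
    (h : DFold G d k) : G.edgeSet.ncard + Nat.clog 2 d * n ≤ ex (n + Nat.clog 2 d) k := by
  classical
  rw [dfold_iff] at h
  have h1 := edge_bound k hk n (Fin n) (Fintype.card_fin n) G (Nat.clog 2 d) (hd.trans h)
    (Nat.clog_mono_right 2 h)
  have h2 := ex_eq (n + Nat.clog 2 d) k hk
  have h3 := choose_add n (Nat.clog 2 d)
  rw [ncard_eq]
  have h4 : G.edgeFinset.card + T k (n + Nat.clog 2 d) ≤ n.choose 2 + (Nat.clog 2 d).choose 2 := by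
    exact le_trans (le_of_eq (congrArg (· + T k (n + Nat.clog 2 d)) (card_edge_inst _ _ _))) h1
  omega

/-- **Theorem.** Let `d, k ≥ 1` and `s = ⌈log_2 d⌉`.

(1) Every graph on `n` vertices (any `n`) which has `d` distinct `k`-colourings has at most
`ex(n + s, K_{k+1}) - s n` edges.

(2) If `k ≥ 2` and `n ≥ (k - 1) s + 1` then `f_d(n, k) = ex(n + s, K_{k+1}) - s n`.

(3) If `d ≥ 2` and some graph on `n` vertices has `d` distinct `2`-colourings then `n ≥ s + 1`; so (2)
determines `f_d(n, 2)` for all `n` for which it is defined. -/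
theorem result (d k : ℕ) (hd : 1 ≤ d) (hk : 1 ≤ k) :
    (∀ (n : ℕ) (G : SimpleGraph (Fin n)), DFold G d k →
      G.edgeSet.ncard + Nat.clog 2 d * n ≤ ex (n + Nat.clog 2 d) k) ∧
    (2 ≤ k → ∀ n : ℕ, (k - 1) * Nat.clog 2 d + 1 ≤ n →
      IsEdgeMaximum d n k (ex (n + Nat.clog 2 d) k - Nat.clog 2 d * n)) ∧
    (2 ≤ d → ∀ (n : ℕ) (G : SimpleGraph (Fin n)), DFold G d 2 → Nat.clog 2 d + 1 ≤ n) := by
  classical
  refine ⟨fun n G h => upper G hd hk h, fun hk2 n hn => ?_, fun hd2 n G h => ?_⟩
  · obtain ⟨G, h1, h2⟩ := exists_graph k n (Nat.clog 2 d) hk2 hn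
    have hG : DFold G d k := (dfold_iff G d k).2 ((Nat.le_pow_clog one_lt_two d).trans h1)
    have h3 := upper G hd hk hG
    have h4 := ex_eq (n + Nat.clog 2 d) k hk
    have h5 := choose_add n (Nat.clog 2 d)
    have h6 : G.edgeSet.ncard = G.edgeFinset.card := ncard_eq G
    have h7 : n.choose 2 + (Nat.clog 2 d).choose 2 ≤ G.edgeSet.ncard + T k (n + Nat.clog 2 d) := by
      rw [h6]
      exact h2.trans (le_of_eq (congrArg (· + T k (n + Nat.clog 2 d)) (card_edge_inst _ _ _)))
    have h8 : G.edgeSet.ncard = ex (n + Nat.clog 2 d) k - Nat.clog 2 d * n := by omega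
    refine ⟨⟨G, ⟨hG, fun x y hxy hadj hcon => ?_⟩, h8⟩, ?_⟩
    · have h9 := upper _ hd hk hcon
      have h10 : G.edgeSet.ncard < (G ⊔ SimpleGraph.edge x y).edgeSet.ncard := by
        refine Set.ncard_lt_ncard ?_ (Set.toFinite _)
        rw [SimpleGraph.edgeSet_ssubset_edgeSet]
        refine lt_of_le_of_ne le_sup_left fun he => hadj ?_
        rw [he]
        exact Or.inr ((SimpleGraph.edge_adj _ _ _ _).2 ⟨Or.inl ⟨rfl, rfl⟩, hxy⟩)
      omega
    · rintro e ⟨H, hH, rfl⟩
      have := upper H hd hk hH.1
      omega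
  · rw [dfold_iff] at h
    rcases Nat.eq_zero_or_pos n with rfl | hn
    · exfalso
      have h1 : colNum G 2 ≤ 1 := by
        unfold colNum
        haveI : Subsingleton (Setoid (Fin 0)) := ⟨fun a b => Setoid.ext fun x => isEmptyElim x⟩
        haveI := finite_setoid (Fin 0)
        exact Finite.card_le_one_iff_subsingleton.2 inferInstance
      omega
    · obtain ⟨m, rfl⟩ : ∃ m, n = m + 1 := ⟨n - 1, by omega⟩
      have h1 := h.trans (colNum_two_le m G)
      have h2 := Nat.clog_le_of_le_pow h1
      omega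

end Pool.Agent.Results.MP_70fc77_co.EdgeMaximum
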