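import Mathlib
import Pool.Agent.H24.FD.N

set_option autoImplicit false

/-!
# The extremal graphs for d-fold k-colourability

Let `d, k ≥ 2` and `s = ⌈log_2 d⌉`. For all `n ≥ (k - 1) s + 1` we determine all maximal `d`-fold
`k`-colourable graphs on `n` vertices with the maximum number `f_d(n, k)` of edges. There are three families
(for most `n` and `d` only the first one is not empty).

Idea: in an extremal graph `G` with a clique of `k` vertices some vertex `x` of the clique has exactly
`⌊(n - 1 + s) / k⌋` non-neighbours, and `G - x` is extremal again. This goes on until there is no clique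
with `k` vertices, and then the graph is a Turán graph `T(m, k - 1)`. We follow this chain backwards, and
count in every step how many colourings survive: with one exception the new vertex `x` must be a twin
of a class.
-/

namespace Pool.Agent.Results.MP_70fc77_co.ExtremalGraphs

/-- A `k`-colouring of `G`: a partition of the vertex set (given as an equivalence relation) into at most
`k` blocks, all of which are anticliques. -/
def IsColouring {V : Type} (G : SimpleGraph V) (k : ℕ) (r : Setoid V) : Prop :=
  Nat.card (Quotient r) ≤ k ∧ ∀ x y, r x y → ¬ G.Adj x y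

/-- `G` has `d` pairwise distinct `k`-colourings. -/
def DFold {V : Type} (G : SimpleGraph V) (d k : ℕ) : Prop :=
  ∃ f : Fin d → Setoid V, Function.Injective f ∧ ∀ i, IsColouring G k (f i)

/-- `G` is maximal `d`-fold `k`-colourable: no edge can be added. -/
def MaximalDFold {V : Type} (G : SimpleGraph V) (d k : ℕ) : Prop :=
  DFold G d k ∧ ∀ x y, x ≠ y → ¬ G.Adj x y → ¬ DFold (G ⊔ SimpleGraph.edge x y) d k

/-- `f_d(n, k) = m`: some maximal `d`-fold `k`-colourable graph on `n` vertices has `m` edges, and none
has more. -/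
def IsEdgeMaximum (d n k m : ℕ) : Prop :=
  IsGreatest {e | ∃ G : SimpleGraph (Fin n), MaximalDFold G d k ∧ G.edgeSet.ncard = e} m

/-- The number of vertices in the class `i`, where `s` is added for the class `a`. -/
def size {n k : ℕ} (c : Fin n → Fin k) (s : ℕ) (a i : Fin k) : ℕ :=
  (Finset.univ.filter fun v => c v = i).card + if i = a then s else 0

/-- The vertices are divided into `k` classes (`c v` is the class of `v`), and `M` is a set of `s` vertices
outside of the class `a`. Two vertices are adjacent if and only if they are in different classes and it is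
not the case that one of them is in `M` and the other one in the class `a`. Any two of the numbers
`|class i|` (for `i ≠ a`) and `|class a| + s` differ by at most one. -/
structure Shape {n : ℕ} (G : SimpleGraph (Fin n)) (k s : ℕ) (c : Fin n → Fin k) (a : Fin k)
    (M : Finset (Fin n)) : Prop where
  card : M.card = s
  out : ∀ v ∈ M, c v ≠ a
  adj : ∀ v w, G.Adj v w ↔ c v ≠ c w ∧ ¬ (v ∈ M ∧ c w = a) ∧ ¬ (w ∈ M ∧ c v = a)
  bal : ∀ i j, size c s a i ≤ size c s a j + 1

/-- The first family: all vertices of `M` are in the same class `b`, which has a vertex outside of `M`.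
(So the only non-edges are the pairs in the class `i` for `i ≠ a, b`, the pairs in the class `b` and the
pairs in the union of the class `a` and `M`.) -/
def FamilyOne {n : ℕ} (G : SimpleGraph (Fin n)) (k s : ℕ) : Prop :=
  ∃ c a M, Shape G k s c a M ∧ ∃ b, (∀ v ∈ M, c v = b) ∧ ∃ v, v ∉ M ∧ c v = b

/-- The second family: one vertex `u` of `M` is in another class than the other vertices of `M` (there are
such vertices), which are all in the class `b`. -/
def FamilyTwo {n : ℕ} (G : SimpleGraph (Fin n)) (k s : ℕ) : Prop :=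
  ∃ c a M, Shape G k s c a M ∧ ∃ b, ∃ u ∈ M, c u ≠ b ∧ (∀ v ∈ M, v ≠ u → c v = b) ∧
    ∃ v ∈ M, v ≠ u

/-- The third family: a complete `(k - 1)`-partite graph, to which two disjoint edges `xy` and `zw` inside
of one class `a` are added; the class `a` has `s + 3` vertices and the other `k - 2` classes have `s + 1` or
`s + 2` vertices. (The classes are indexed by the `k - 1` elements `i ≠ b` of `Fin k`.) -/
def FamilyThree {n : ℕ} (G : SimpleGraph (Fin n)) (k s : ℕ) : Prop :=
  ∃ (c : Fin n → Fin k) (a b : Fin k) (x y z w : Fin n), a ≠ b ∧ (∀ v, c v ≠ b) ∧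
    (c x = a ∧ c y = a ∧ c z = a ∧ c w = a) ∧
    (x ≠ y ∧ x ≠ z ∧ x ≠ w ∧ y ≠ z ∧ y ≠ w ∧ z ≠ w) ∧
    (∀ v v', G.Adj v v' ↔ c v ≠ c v' ∨ s(v, v') = s(x, y) ∨ s(v, v') = s(z, w)) ∧
    (Finset.univ.filter fun v => c v = a).card = s + 3 ∧
    ∀ i, i ≠ a → i ≠ b → (Finset.univ.filter fun v => c v = i).card = s + 1 ∨
      (Finset.univ.filter fun v => c v = i).card = s + 2

open Pool.Agent.H24.FD

lemma dfold_iff {V : Type} [Finite V] (G : SimpleGraph V) (d k : ℕ) :
    DFold G d k ↔ d ≤ colNum G k := by
  classical
  have := finite_setoid V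
  have : Fintype {r : Setoid V // IsCol G k r} := Fintype.ofFinite _
  unfold colNum
  rw [Nat.card_eq_fintype_card]
  constructor
  · rintro ⟨f, hf, hc⟩
    have h := Fintype.card_le_of_injective (fun i => (⟨f i, hc i⟩ : {r : Setoid V // IsCol G k r}))
      (fun i j hij => hf (congrArg Subtype.val hij))
    rwa [Fintype.card_fin] at h
  · intro h
    have h1 : Fintype.card (Fin d) ≤ Fintype.card {r : Setoid V // IsCol G k r} := by
      rwa [Fintype.card_fin]
    obtain ⟨e⟩ := Function.Embedding.nonempty_of_card_le h1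
    exact ⟨fun i => (e i).1, fun i j hij => e.injective (Subtype.ext hij), fun i => (e i).2⟩

lemma ncard_eq {n : ℕ} (G : SimpleGraph (Fin n)) [Fintype G.edgeSet] :
    G.edgeSet.ncard = G.edgeFinset.card := by
  rw [← SimpleGraph.coe_edgeFinset, Set.ncard_coe_finset]

lemma shape_iff {n : ℕ} (G : SimpleGraph (Fin n)) (k s : ℕ) (c : Fin n → Fin k) (a : Fin k)
    (M : Finset (Fin n)) : Shape G k s c a M ↔ RepOn G Finset.univ k s c a M := by
  constructor
  · intro h
    exact ⟨Finset.subset_univ _, h.card, h.out, fun y _ z _ _ => h.adj y z, h.bal⟩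
  · intro h
    refine ⟨h.card, h.ne, fun y z => ?_, h.bal⟩
    by_cases hyz : y = z
    · subst hyz
      exact ⟨fun h1 => absurd h1 (G.loopless.irrefl y), fun h1 => absurd rfl h1.1⟩
    · exact h.adj y (Finset.mem_univ _) z (Finset.mem_univ _) hyz

lemma one_iff {n : ℕ} (G : SimpleGraph (Fin n)) (k s : ℕ) : FamilyOne G k s ↔ FamOne G k s := by
  unfold FamilyOne FamOne
  simp only [shape_iff]

lemma two_iff {n : ℕ} (G : SimpleGraph (Fin n)) (k s : ℕ) : FamilyTwo G k s ↔ FamTwo G k s := by
  unfold FamilyTwo FamTwo
  simp only [shape_iff]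

lemma three_iff {n : ℕ} (G : SimpleGraph (Fin n)) (k s : ℕ) :
    FamilyThree G k s ↔ FamThree G k s := by
  constructor
  · rintro ⟨c, a, b, x, y, z, w, hab, hb, ⟨cx, cy, cz, cw⟩, ⟨xy, xz, xw, yz, yw, zw⟩, hadj, hca, hc⟩
    refine ⟨c, a, b, x, z, y, w, hab, Finset.mem_univ _, Finset.mem_univ _, Finset.mem_univ _,
      Finset.mem_univ _, cx, cz, cy, cw, xz, xy, xw, yz.symm, zw, yw, fun v _ => hb v, ?_, hca, hc⟩
    intro v _ v' _ _
    rw [hadj v v', Sym2.eq_iff, Sym2.eq_iff, or_assoc]
  · rintro ⟨c, a, b, x, z, y, w, h⟩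
    refine ⟨c, a, b, x, y, z, w, h.ab, fun v => h.nb v (Finset.mem_univ _),
      ⟨h.c0, h.c2, h.c1, h.c3⟩, ⟨h.d02, h.d01, h.d03, h.d12.symm, h.d23, h.d13⟩, ?_, h.carda, h.card⟩
    intro v v'
    rw [Sym2.eq_iff, Sym2.eq_iff, or_assoc]
    by_cases hvv : v = v'
    · subst hvv
      constructor
      · exact fun h1 => absurd h1 (G.loopless.irrefl v)
      · rintro (h1 | h1 | h1 | h1 | h1)
        · exact absurd rfl h1
        · exact absurd (h1.1.symm.trans h1.2) h.d02
        · exact absurd (h1.2.symm.trans h1.1) h.d02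
        · exact absurd (h1.1.symm.trans h1.2) h.d13
        · exact absurd (h1.2.symm.trans h1.1) h.d13
    · exact h.adj v (Finset.mem_univ _) v' (Finset.mem_univ _) hvv

lemma upper {n d k : ℕ} (hd : 1 ≤ d) (hk : 1 ≤ k) (G : SimpleGraph (Fin n))
    (h : d ≤ colNum G k) :
    G.edgeSet.ncard + T k (n + Nat.clog 2 d) ≤ n.choose 2 + (Nat.clog 2 d).choose 2 := by
  classical
  have h1 := edge_bound k hk n (Fin n) (Fintype.card_fin n) G (Nat.clog 2 d) (hd.trans h)
    (Nat.clog_mono_right 2 h)
  rw [ncard_eq]
  exact le_trans (le_of_eq (congrArg (· + T k (n + Nat.clog 2 d)) (card_edge_inst _ _ _))) h1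

lemma maximal_of {n d k : ℕ} (hd : 1 ≤ d) (hk : 1 ≤ k) (G : SimpleGraph (Fin n))
    (h : d ≤ colNum G k)
    (he : n.choose 2 + (Nat.clog 2 d).choose 2 ≤ G.edgeSet.ncard + T k (n + Nat.clog 2 d)) :
    MaximalDFold G d k ∧ IsEdgeMaximum d n k G.edgeSet.ncard := by
  classical
  have h1 := upper hd hk G h
  have hmax : MaximalDFold G d k := by
    refine ⟨(dfold_iff G d k).2 h, fun x y hxy hadj hcon => ?_⟩
    have h9 := upper hd hk _ ((dfold_iff _ d k).1 hcon)
    have h10 : G.edgeSet.ncard < (G ⊔ SimpleGraph.edge x y).edgeSet.ncard := by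
      refine Set.ncard_lt_ncard ?_ (Set.toFinite _)
      rw [SimpleGraph.edgeSet_ssubset_edgeSet]
      refine lt_of_le_of_ne le_sup_left fun he => hadj ?_
      rw [he]
      exact Or.inr ((SimpleGraph.edge_adj _ _ _ _).2 ⟨Or.inl ⟨rfl, rfl⟩, hxy⟩)
    omega
  refine ⟨hmax, ⟨G, hmax, rfl⟩, ?_⟩
  rintro e ⟨H, hH, rfl⟩
  have h2 := upper hd hk H ((dfold_iff _ d k).1 hH.1)
  omega

/-- **Theorem.** Let `d, k ≥ 2`, `s = ⌈log_2 d⌉` and `n ≥ (k - 1) s + 1`. The maximal `d`-fold
`k`-colourable graphs on `n` vertices with exactly `f_d(n, k)` edges are the graphs in the first family, in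
the third family and, if `d = 2^(s-1) + 1`, also those in the second family. -/
theorem result (d k n : ℕ) (hd : 2 ≤ d) (hk : 2 ≤ k) (hn : (k - 1) * Nat.clog 2 d + 1 ≤ n)
    (G : SimpleGraph (Fin n)) :
    (MaximalDFold G d k ∧ IsEdgeMaximum d n k G.edgeSet.ncard) ↔
      (FamilyOne G k (Nat.clog 2 d) ∨ FamilyThree G k (Nat.clog 2 d) ∨
        (d = 2 ^ (Nat.clog 2 d - 1) + 1 ∧ FamilyTwo G k (Nat.clog 2 d))) := by
  classical
  rw [one_iff, two_iff, three_iff]
  obtain ⟨s, hs⟩ : ∃ s, s = Nat.clog 2 d := ⟨_, rfl⟩
  have hs1 : 1 ≤ s := by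
    rw [hs]
    exact Nat.clog_pos one_lt_two hd
  have hlow : 2 ^ (s - 1) < d := by
    rw [hs]
    exact Nat.pow_pred_clog_lt_self one_lt_two hd
  have hup : d ≤ 2 ^ s := by
    rw [hs]
    exact Nat.le_pow_clog one_lt_two d
  have hpow : 2 ^ s = 2 * 2 ^ (s - 1) := by
    obtain ⟨r, rfl⟩ : ∃ r, s = r + 1 := ⟨s - 1, by omega⟩
    rw [Nat.add_sub_cancel, pow_succ]
    ring
  have hk1 : 1 ≤ k := by omega
  have hd1 : 1 ≤ d := by omega
  have hcard : Fintype.card (Fin n) = n := Fintype.card_fin n
  constructor
  · rintro ⟨hmax, hgr⟩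
    have hdc := (dfold_iff G d k).1 hmax.1
    obtain ⟨H, hH1, hH2⟩ := exists_graph k n (Nat.clog 2 d) hk hn
    have hH3 : n.choose 2 + (Nat.clog 2 d).choose 2
        ≤ H.edgeSet.ncard + T k (n + Nat.clog 2 d) := by
      rw [ncard_eq]
      exact hH2.trans (le_of_eq (congrArg (· + T k (n + Nat.clog 2 d)) (card_edge_inst _ _ _)))
    have hH4 := maximal_of hd1 hk1 H ((Nat.le_pow_clog one_lt_two d).trans hH1) hH3
    have hle : H.edgeSet.ncard ≤ G.edgeSet.ncard := hgr.2 ⟨H, hH4.1, rfl⟩
    have hG1 := upper hd1 hk1 G hdc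
    have he : G.edgeFinset.card + T k (n + s) = n.choose 2 + s.choose 2 := by
      rw [← ncard_eq, hs]
      omega
    have hp : 2 ^ s < 2 * colNum G k := by omega
    rw [← hs] at hn ⊢
    by_cases hcf : G.CliqueFree k
    · left
      obtain ⟨j, rfl⟩ : ∃ j, k = j + 1 := ⟨k - 1, by omega⟩
      refine free_family (by omega) hcard G hn hcf ?_
      exact (congrArg (· + T (j + 1) (n + s)) (card_edge_inst _ _ _)).trans he
    · have hcf2 := hcf
      rw [SimpleGraph.not_cliqueFree_iff_top_isContained] at hcf2
      obtain ⟨f⟩ := hcf2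
      have hcl : ∀ i j : Fin k, i ≠ j → G.Adj (f i) (f j) := fun i j hij => f.toHom.map_adj hij
      rcases classify k hk s n (Fin n) hcard G hp
        ((congrArg (· + T k (n + s)) (card_edge_inst _ _ _)).trans he) hcf with
        ⟨c, a, M, h⟩ | h
      · rcases rep_types h (t := fun i => f i) hcl hs1 hp with h1 | ⟨h1, h2⟩
        · exact Or.inl h1
        · exact Or.inr (Or.inr ⟨by omega, h1⟩)
      · exact Or.inr (Or.inl h)
  · intro hfam
    have hmain : d ≤ colNum G k ∧
        n.choose 2 + s.choose 2 ≤ G.edgeSet.ncard + T k (n + s) := by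
      rw [← hs] at hfam hn
      rcases hfam with ⟨c, a, M, h, b, hb, y, hyM, hcy⟩ | ⟨c, a, b, w0, w1, w2, w3, h⟩ |
        ⟨hdd, c, a, M, h, b, u, huM, hub, hoth, hex⟩
      · refine ⟨hup.trans ?_, ?_⟩
        · rw [← h.card, ← Finset.card_powerset]
          refine rep_colNum_ge h (fun m hm => ⟨y, hyM, hcy.trans (hb m hm).symm⟩) _
            (fun A hA => Finset.mem_powerset.1 hA) ?_
          intro A hA m hm m' hm'
          have hAM := Finset.mem_powerset.1 hA
          rw [hb m (hAM hm), hb m' (hAM hm')]
        · rw [ncard_eq]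
          exact (rep_edges hk1 hcard h).trans
            (le_of_eq (congrArg (· + T k (n + s)) (card_edge_inst _ _ _)))
      · refine ⟨hup.trans (four_colNum_ge h), ?_⟩
        rw [ncard_eq]
        exact (four_edges hk1 hcard h).trans
          (le_of_eq (congrArg (· + T k (n + s)) (card_edge_inst _ _ _)))
      · refine ⟨?_, ?_⟩
        · -- the classes of the elements of `M` are not contained in `M`
          have hsum := rho_sum Finset.univ s c a
          rw [Finset.card_univ, hcard] at hsum
          have hq : ∀ i, s ≤ rho Finset.univ s c a i := by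
            intro i
            refine le_trans ?_ (bal_le hsum h.bal i)
            rw [Nat.le_div_iff_mul_le (by omega)]
            obtain ⟨j, rfl⟩ : ∃ j, k = j + 1 := ⟨k - 1, by omega⟩
            rw [Nat.add_sub_cancel] at hn
            have : s * (j + 1) = j * s + s := by ring
            omega
          have hcls : ∀ i, i ≠ a → s ≤ (Finset.univ.filter fun v => c v = i).card := by
            intro i hi
            have h1 := hq i
            unfold rho at h1
            rw [if_neg hi, add_zero] at h1
            exact h1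
          have hyy : ∀ m ∈ M, ∃ y, y ∉ M ∧ c y = c m := by
            intro m hm
            by_contra hcon
            push Not at hcon
            have h1 : (Finset.univ.filter fun v => c v = c m) ⊆ M.filter fun v => c v = c m := by
              intro v hv
              have h2 := (Finset.mem_filter.1 hv).2
              refine Finset.mem_filter.2 ⟨?_, h2⟩
              by_contra h3
              exact hcon v h3 h2
            have h2 := (hcls (c m) (h.ne m hm)).trans (Finset.card_le_card h1)
            have h3 : (M.filter fun v => c v = c m) = M :=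
              Finset.eq_of_subset_of_card_le (Finset.filter_subset _ _) (by rw [h.card]; exact h2)
            obtain ⟨v, hvM, hvu⟩ := hex
            have h4 : ∀ v ∈ M, c v = c m := by
              intro v hv
              rw [← h3] at hv
              exact (Finset.mem_filter.1 hv).2
            exact hub ((h4 u huM).trans ((h4 v hvM).symm.trans (hoth v hvM hvu)))
          have h1 : ({u} : Finset (Fin n)) ∉ (M.erase u).powerset := by
            intro h2
            have h3 := Finset.mem_powerset.1 h2 (Finset.mem_singleton_self u)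
            exact (Finset.mem_erase.1 h3).1 rfl
          have h2 : (insert ({u} : Finset (Fin n)) (M.erase u).powerset).card = d := by
            rw [Finset.card_insert_of_notMem h1, Finset.card_powerset,
              Finset.card_erase_of_mem huM, h.card]
            exact hdd.symm
          rw [← h2]
          refine rep_colNum_ge h hyy _ ?_ ?_
          · intro A hA
            rcases Finset.mem_insert.1 hA with hA | hA
            · rw [hA, Finset.singleton_subset_iff]; exact huM
            · exact (Finset.mem_powerset.1 hA).trans (Finset.erase_subset _ _)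
          · intro A hA m hm m' hm'
            rcases Finset.mem_insert.1 hA with hA | hA
            · rw [hA, Finset.mem_singleton] at hm hm'
              rw [hm, hm']
            · have i1 := Finset.mem_erase.1 (Finset.mem_powerset.1 hA hm)
              have i2 := Finset.mem_erase.1 (Finset.mem_powerset.1 hA hm')
              rw [hoth m i1.2 i1.1, hoth m' i2.2 i2.1]
        · rw [ncard_eq]
          exact (rep_edges hk1 hcard h).trans
            (le_of_eq (congrArg (· + T k (n + s)) (card_edge_inst _ _ _)))
    rw [hs] at hmain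
    exact maximal_of hd1 hk1 G hmain.1 hmain.2

end Pool.Agent.Results.MP_70fc77_co.ExtremalGraphs
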